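import Mathlib
import Pool.Agent.Lib.MP_57d9fc_co.Wrapper

/-!
# Volume-maximal inscribed cyclic polytopes with `d + 3` vertices, `d` even

For every even `d ≥ 2` the supremum of the volume over the class `C_d` of cyclic `d`-polytopes with
`d + 3` vertices inscribed in the unit sphere is attained, and every maximiser has a dihedral
symmetry of order `d + 3`.
-/

open MeasureTheory

namespace Pool.Agent.Results.MP_57d9fc_co.Dihedral

/-- Euclidean space `E^d`. -/
abbrev Sp (d : ℕ) : Type := EuclideanSpace ℝ (Fin d)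

/-- A convex `d`-polytope in `E^d`: the convex hull of a finite set, with nonempty interior. -/
def IsPolytope {d : ℕ} (P : Set (Sp d)) : Prop :=
  (∃ V : Set (Sp d), V.Finite ∧ P = convexHull ℝ V) ∧ (interior P).Nonempty

/-- The face lattice of `P`: the exposed faces of `P` (intersections of `P` with supporting
hyperplanes, together with the empty set and `P`), ordered by inclusion. -/
abbrev FaceLattice {d : ℕ} (P : Set (Sp d)) : Type := {F : Set (Sp d) // IsExposed ℝ P F}

/-- The moment curve `t ↦ (t, t ^ 2, …, t ^ d)`. -/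
noncomputable def momentCurve (d : ℕ) (t : ℝ) : Sp d := WithLp.toLp 2 fun a => t ^ ((a : ℕ) + 1)

/-- `P` is a cyclic `d`-polytope with `n` vertices: a `d`-polytope whose face lattice is isomorphic
to that of the convex hull of `n` distinct points on the moment curve. -/
def IsCyclicPolytope {d : ℕ} (n : ℕ) (P : Set (Sp d)) : Prop :=
  IsPolytope P ∧ ∃ t : Fin n → ℝ, Function.Injective t ∧
    Nonempty (FaceLattice P ≃o FaceLattice (convexHull ℝ (Set.range fun i => momentCurve d (t i))))

/-- The class `C_d`: cyclic `d`-polytopes with `d + 3` vertices, all of whose vertices lie on the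
unit sphere centred at the origin. -/
def classC (d : ℕ) : Set (Set (Sp d)) :=
  {P | IsCyclicPolytope (d + 3) P ∧ P.extremePoints ℝ ⊆ Metric.sphere 0 1}

/-- A maximiser: a member of `C_d` whose volume is the supremum of the volumes over `C_d`. -/
def IsMaximiser {d : ℕ} (P : Set (Sp d)) : Prop :=
  P ∈ classC d ∧ volume P = ⨆ Q ∈ classC d, volume Q

/-- `P` has a dihedral symmetry of order `n`: its vertices can be labelled `p i`, `i` modulo `n`,
so that for every `k` the distance from `p (i + k)` to `p i` does not depend on `i`. -/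
def HasDihedralSymmetry {d : ℕ} (n : ℕ) (P : Set (Sp d)) : Prop :=
  ∃ p : ZMod n → Sp d, Function.Injective p ∧ Set.range p = P.extremePoints ℝ ∧
    ∀ k i j : ZMod n, dist (p (i + k)) (p i) = dist (p (j + k)) (p j)

open Pool.Agent.Lib.MP_57d9fc_co in
/-- The volume of a member of the class is at most `vmax d`, with the equality case. -/
lemma member_bound {d : ℕ} (hd : 2 ≤ d) (he : Even d) {P : Set (Sp d)} (hP : P ∈ classC d) :
    volume P ≤ vmax d ∧ (volume P = vmax d → HasDihedralSymmetry (d + 3) P) := by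
  obtain ⟨⟨⟨⟨V, hV, hPV⟩, hint⟩, t, ht, ⟨Φ⟩⟩, hsph⟩ := hP
  obtain ⟨p, hinj, hrange, hhull, hcyc⟩ := exists_labelling hd hV hPV ht Φ
  have hp : ∀ l, ‖p l‖ = 1 := by
    intro l
    have h1 : p l ∈ P.extremePoints ℝ := by rw [← hrange]; exact ⟨l, rfl⟩
    simpa using hsph h1
  have hodd : Odd (d + 3) := by
    obtain ⟨k, hk⟩ := he
    exact ⟨k + 1, by omega⟩
  have hb := volume_le (by omega) hodd hp (by rw [hhull]; exact hint) hcyc
  rw [hhull] at hb
  refine ⟨hb.1, fun heq => ?_⟩
  have hgram := hb.2 heq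
  set g : ZMod (d + 3) → Fin (d + 3) := fun i => ⟨i.val, ZMod.val_lt i⟩ with hg
  have hgb : Function.Bijective g := by
    rw [Fintype.bijective_iff_injective_and_card]
    refine ⟨fun i j hij => ZMod.val_injective _ (congrArg Fin.val hij), ?_⟩
    rw [ZMod.card, Fintype.card_fin]
  refine ⟨p ∘ g, hinj.comp hgb.1, ?_, ?_⟩
  · rw [Set.range_comp, hgb.2.range_eq, Set.image_univ, hrange]
  · have hn0 : ((d + 3 : ℕ) : ℝ) ≠ 0 := by positivity
    -- the inner product depends only on `k`
    have hinner : ∀ k i : ZMod (d + 3), (d : ℝ) / ((d : ℝ) + 3) *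
        inner ℝ (p (g (i + k))) (p (g i)) = (if k = 0 then 1 else 0) - 1 / ((d : ℝ) + 3) -
        2 / ((d + 3 : ℕ) : ℝ) * Real.cos (2 * Real.pi * (((d + 3 - 1) / 2 : ℕ) *
          ((k.val : ℕ) : ℝ)) / (d + 3 : ℕ)) := by
      intro k i
      have h1 := hgram (g (i + k)) (g i)
      have h2 : (g (i + k) = g i) ↔ k = 0 := by
        rw [hgb.1.eq_iff]
        simp
      simp only [h2] at h1
      rw [← h1]
      have h3 : Real.cos (2 * Real.pi * (((d + 3 - 1) / 2 : ℕ) *
          ((((g i : Fin (d + 3)) : ℕ) : ℝ) - (((g (i + k) : Fin (d + 3)) : ℕ) : ℝ))) / (d + 3 : ℕ)) =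
          Real.cos (2 * Real.pi * (((d + 3 - 1) / 2 : ℕ) * ((k.val : ℕ) : ℝ)) / (d + 3 : ℕ)) := by
        have e1 : ((g (i + k) : Fin (d + 3)) : ℕ) = (i.val + k.val) % (d + 3) := ZMod.val_add i k
        have e2 : ((g i : Fin (d + 3)) : ℕ) = i.val := rfl
        have hi := ZMod.val_lt i
        have hk := ZMod.val_lt k
        rw [e1, e2, ← Real.cos_neg]
        rcases lt_or_ge (i.val + k.val) (d + 3) with hlt | hge
        · rw [Nat.mod_eq_of_lt hlt]
          congr 1
          push_cast
          ring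
        · have hmod : (i.val + k.val) % (d + 3) = i.val + k.val - (d + 3) := by
            rw [Nat.mod_eq_sub_mod hge, Nat.mod_eq_of_lt (by omega)]
          rw [hmod, Nat.cast_sub hge, ← Real.cos_add_nat_mul_two_pi _ ((d + 3 - 1) / 2)]
          congr 1
          push_cast
          field_simp
          ring
      rw [h3]; ring
    intro k i j
    have hd0 : (d : ℝ) / ((d : ℝ) + 3) ≠ 0 := by
      have : (d : ℝ) ≠ 0 := by exact_mod_cast (by omega : d ≠ 0)
      positivity
    have h1 : inner ℝ (p (g (i + k))) (p (g i)) = inner ℝ (p (g (j + k))) (p (g j)) :=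
      mul_left_cancel₀ hd0 ((hinner k i).trans (hinner k j).symm)
    have hdist : ∀ x y : Fin (d + 3), dist (p x) (p y) ^ 2 = 2 - 2 * inner ℝ (p x) (p y) := by
      intro x y
      rw [dist_eq_norm, norm_sub_sq_real, hp, hp]; ring
    have h2 : dist (p (g (i + k))) (p (g i)) ^ 2 = dist (p (g (j + k))) (p (g j)) ^ 2 := by
      rw [hdist, hdist, h1]
    exact (sq_eq_sq₀ dist_nonneg dist_nonneg).1 h2

open Pool.Agent.Lib.MP_57d9fc_co in
/-- The bound is attained. -/
lemma exists_member {d : ℕ} (hd : 2 ≤ d) (he : Even d) :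
    ∃ P ∈ classC d, volume P = vmax d := by
  obtain ⟨m, hm⟩ := he
  have h : Fin d ≃ Fin m × Fin 2 := (finCongr (by omega)).trans finProdFinEquiv.symm
  have hm0 : 0 < m := by omega
  refine ⟨convexHull ℝ (Set.range (q h)), ⟨⟨⟨⟨Set.range (q h), Set.finite_range _, rfl⟩,
    interior_q h⟩, tq d, (tq_strictMono d).injective, faceLattice_q h⟩, ?_⟩, volume_q h hm0⟩
  refine extremePoints_convexHull_subset.trans ?_
  rintro _ ⟨x, rfl⟩
  simpa using norm_q h hm0 x

/-- **Main theorem.** For every even `d ≥ 2` the supremum of the volume over the class `C_d` is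
attained, and every maximiser has a dihedral symmetry of order `d + 3`. -/
theorem result : ∀ d : ℕ, 2 ≤ d → Even d →
    (∃ P : Set (Sp d), IsMaximiser P) ∧
    ∀ P : Set (Sp d), IsMaximiser P → HasDihedralSymmetry (d + 3) P := by
  intro d hd he
  obtain ⟨P₀, hP₀, hvol₀⟩ := exists_member hd he
  have hsup : ⨆ Q ∈ classC d, volume Q = Pool.Agent.Lib.MP_57d9fc_co.vmax d := by
    apply le_antisymm
    · exact iSup₂_le fun Q hQ => (member_bound hd he hQ).1
    · rw [← hvol₀]
      exact le_iSup₂ (f := fun Q (_ : Q ∈ classC d) => volume Q) P₀ hP₀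
  refine ⟨⟨P₀, hP₀, by rw [hsup, hvol₀]⟩, fun P hP => ?_⟩
  exact (member_bound hd he hP.1).2 (by rw [hP.2, hsup])

end Pool.Agent.Results.MP_57d9fc_co.Dihedral
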